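import Pool.Agent.Lib.MP_4b3eba_co.Tab

/-!
# The bend number depends on the slope set

There are a graph `G` and a set `D` of four slopes with `b_4(G) = 1` and `β_D(G) = 2`.
-/

namespace Pool.Agent.Results.MP_4b3eba_co.SlopeDependence

/-- The plane `ℝ²`. -/
abbrev Plane : Type := ℝ × ℝ

/-- `D` is a set of `d` pairwise non-parallel lines through the origin, i.e. a set of `d`
(different) one-dimensional linear subspaces of the plane. -/
def IsSlopeSet (d : ℕ) (D : Finset (Submodule ℝ Plane)) : Prop :=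
  D.card = d ∧ ∀ ℓ ∈ D, Module.finrank ℝ ℓ = 1

/-- `P` is a polyline with at most `k` bends each of whose segments is parallel to a line of `D`:
it is the union of the segments `[p 0, p 1], [p 1, p 2], ..., [p m, p (m+1)]` with `m ≤ k`, where
each of these segments is non-degenerate and parallel to a line of `D`. -/
def IsPolyline (D : Finset (Submodule ℝ Plane)) (k : ℕ) (P : Set Plane) : Prop :=
  ∃ m ≤ k, ∃ p : ℕ → Plane, (∀ i ≤ m, p i ≠ p (i + 1) ∧ ∃ ℓ ∈ D, p (i + 1) - p i ∈ ℓ) ∧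
    P = {x | ∃ i ≤ m, x ∈ segment ℝ (p i) (p (i + 1))}

/-- `G` has an EPG(D)-representation in which every polyline has at most `k` bends: each vertex is
assigned such a polyline, and two different vertices are adjacent if and only if their polylines
have infinite intersection. -/
def HasRep {V : Type} (D : Finset (Submodule ℝ Plane)) (k : ℕ) (G : SimpleGraph V) : Prop :=
  ∃ P : V → Set Plane, (∀ v, IsPolyline D k (P v)) ∧
    ∀ u v, u ≠ v → (G.Adj u v ↔ (P u ∩ P v).Infinite)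

/-- `β_D(G)`: the least `k` such that `G` has an EPG(D)-representation in which every polyline has
at most `k` bends (infinity if there is none). -/
noncomputable def beta {V : Type} (D : Finset (Submodule ℝ Plane)) (G : SimpleGraph V) : ℕ∞ :=
  ⨅ (k : ℕ) (_ : HasRep D k G), (k : ℕ∞)

/-- The `d`-bend number `b_d(G)`: the minimum of `β_D(G)` over all sets `D` of `d` slopes. -/
noncomputable def bendNumber {V : Type} (d : ℕ) (G : SimpleGraph V) : ℕ∞ :=
  ⨅ (D : Finset (Submodule ℝ Plane)) (_ : IsSlopeSet d D), beta D G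

open Pool.Agent.Bend

/-! ### the graph -/

/-- the graph -/
def G : SimpleGraph (Fin 96) where
  Adj n m := n ≠ m ∧ (PS (s1 n) ∩ PS (s1 m)).Infinite
  symm := ⟨fun n m h => ⟨h.1.symm, by rw [Set.inter_comm]; exact h.2⟩⟩
  loopless := ⟨fun n h => h.1 rfl⟩

theorem G_adj {n m : Fin 96} (h : n ≠ m) : G.Adj n m ↔ adL (s1 n) (s1 m) = true := by
  rw [adL_iff (nd1 n) (nd1 m)]
  exact ⟨fun h1 => h1.2, fun h1 => ⟨h, h1⟩⟩

def hu (i : Fin 2) : Fin 96 := ⟨i.val, by omega⟩
def hv (j : Fin 2) : Fin 96 := ⟨2 + j.val, by omega⟩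
def cor (i j : Fin 2) (n : Fin 8) : Fin 96 := ⟨4 + 16 * i.val + 8 * j.val + n.val, by omega⟩
def zx (i : Fin 2) (k : ℕ) : Fin 96 := ⟨36 + 15 * i.val + k % 15, by omega⟩
def zy (j : Fin 2) (k : ℕ) : Fin 96 := ⟨66 + 15 * j.val + k % 15, by omega⟩

def LX (_ : Fin 2) (k : ℕ) : Fin 2 × Fin 8 :=
  ([(1, 2), (1, 3), (1, 0), (1, 1), (0, 2), (0, 3), (0, 0), (0, 1), (0, 4), (0, 5), (0, 6), (0, 7),
    (1, 4), (1, 5), (1, 6), (1, 7)] : List (Fin 2 × Fin 8)).getD k (0, 0)
def LY (_ : Fin 2) (k : ℕ) : Fin 2 × Fin 8 :=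
  ([(1, 4), (1, 5), (1, 0), (1, 1), (0, 4), (0, 5), (0, 0), (0, 1), (0, 2), (0, 3), (0, 6), (0, 7),
    (1, 2), (1, 3), (1, 6), (1, 7)] : List (Fin 2 × Fin 8)).getD k (0, 0)
def PX (_ : Fin 2) (p : Fin 2 × Fin 8) : ℕ :=
  (![![6, 7, 4, 5, 8, 9, 10, 11], ![2, 3, 0, 1, 12, 13, 14, 15]] : Fin 2 → Fin 8 → ℕ) p.1 p.2
def PY (_ : Fin 2) (p : Fin 2 × Fin 8) : ℕ :=
  (![![6, 7, 8, 9, 4, 5, 10, 11], ![2, 3, 12, 13, 0, 1, 14, 15]] : Fin 2 → Fin 8 → ℕ) p.1 p.2

theorem lists : Lists LX LY PX PY where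
  X1 := by decide
  X2 := by decide
  X3 := by decide +kernel
  Y1 := by decide
  Y2 := by decide
  Y3 := by decide +kernel
  X4 := by decide +kernel
  Y4 := by decide +kernel
  X5 := by decide
  Y5 := by decide

/-! ### polylines with few bends -/

theorem polyline_one {D : Finset (Submodule ℝ Plane)} {P : Set Plane} (h : IsPolyline D 1 P) :
    ∃ (q : Pt) (a : Fin 2 → Pt), (∀ i, a i ≠ 0 → ∃ ℓ ∈ D, a i ∈ ℓ) ∧
      P = ⋃ i : Fin 2, sg q (a i) := by
  obtain ⟨m, hm, p, hp, rfl⟩ := h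
  have hseg : ∀ x y : Pt, segment ℝ x y = sg x (y - x) := by
    intro x y; rw [sg_eq]; congr 1; abel
  have hm' : m = 0 ∨ m = 1 := by omega
  rcases hm' with rfl | rfl
  · refine ⟨p 0, ![p 1 - p 0, 0], ?_, ?_⟩
    · intro i
      fin_cases i
      · intro _; exact (hp 0 le_rfl).2
      · intro h; simp at h
    · ext x
      simp only [Set.mem_iUnion, Fin.exists_fin_two, Matrix.cons_val_zero, Matrix.cons_val_one]
      constructor
      · rintro ⟨i, hi, hx⟩
        have : i = 0 := by omega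
        subst this
        left
        rwa [hseg] at hx
      · rintro (hx | ⟨t, _, _, hx⟩)
        · exact ⟨0, le_rfl, by rw [hseg]; exact hx⟩
        · refine ⟨0, le_rfl, ?_⟩
          rw [hx, smul_zero, add_zero]
          exact left_mem_segment ℝ _ _
  · refine ⟨p 1, ![p 0 - p 1, p 2 - p 1], ?_, ?_⟩
    · intro i
      fin_cases i
      · intro _
        obtain ⟨ℓ, h1, h2⟩ := (hp 0 (by omega)).2
        refine ⟨ℓ, h1, ?_⟩
        have := ℓ.neg_mem h2
        simpa using this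
      · intro _; exact (hp 1 le_rfl).2
    · ext x
      simp only [Set.mem_iUnion, Fin.exists_fin_two, Matrix.cons_val_zero, Matrix.cons_val_one]
      constructor
      · rintro ⟨i, hi, hx⟩
        have : i = 0 ∨ i = 1 := by omega
        rcases this with rfl | rfl
        · left
          rw [segment_symm, hseg] at hx
          exact hx
        · right
          rw [hseg] at hx
          exact hx
      · rintro (hx | hx)
        · exact ⟨0, by omega, by rw [segment_symm, hseg]; exact hx⟩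
        · exact ⟨1, le_rfl, by rw [hseg]; exact hx⟩

theorem polyline_zero {D : Finset (Submodule ℝ Plane)} {P : Set Plane} (h : IsPolyline D 0 P) :
    ∃ (q : Pt) (a : Fin 2 → Pt), a 1 = 0 ∧ P = ⋃ i : Fin 2, sg q (a i) := by
  obtain ⟨m, hm, p, hp, rfl⟩ := h
  have hseg : ∀ x y : Pt, segment ℝ x y = sg x (y - x) := by
    intro x y; rw [sg_eq]; congr 1; abel
  have hm' : m = 0 := by omega
  subst hm'
  refine ⟨p 0, ![p 1 - p 0, 0], rfl, ?_⟩
  ext x
  simp only [Set.mem_iUnion, Fin.exists_fin_two, Matrix.cons_val_zero, Matrix.cons_val_one]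
  constructor
  · rintro ⟨i, hi, hx⟩
    have : i = 0 := by omega
    subst this
    left
    rwa [hseg] at hx
  · rintro (hx | ⟨t, _, _, hx⟩)
    · exact ⟨0, le_rfl, by rw [hseg]; exact hx⟩
    · refine ⟨0, le_rfl, ?_⟩
      rw [hx, smul_zero, add_zero]
      exact left_mem_segment ℝ _ _

theorem rep_mono {V : Type} {D : Finset (Submodule ℝ Plane)} {k k' : ℕ} {G : SimpleGraph V}
    (hk : k ≤ k') (h : HasRep D k G) : HasRep D k' G := by
  obtain ⟨P, hP, hG⟩ := h
  refine ⟨P, fun v => ?_, hG⟩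
  obtain ⟨m, hm, h'⟩ := hP v
  exact ⟨m, hm.trans hk, h'⟩

/-! ### slopes -/

/-- the line through the origin and an integer point -/
def line (d : ZP) : Submodule ℝ Plane := Submodule.span ℝ {tc d}

theorem mem_line {d : ZP} {v : Pt} : v ∈ line d ↔ ∃ c : ℝ, c • tc d = v := by
  unfold line
  exact Submodule.mem_span_singleton

theorem line_ne {a b : ZP} (h : cr (tc a) (tc b) ≠ 0) : line a ≠ line b := by
  intro he
  have h1 : tc a ∈ line b := by rw [← he]; exact mem_line.mpr ⟨1, one_smul _ _⟩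
  obtain ⟨c, hc⟩ := mem_line.mp h1
  apply h
  rw [← hc, cr_smul_left, cr_self, mul_zero]

def dirs1 (i : Fin 4) : ZP := ![(1, 0), (0, 1), (3, -2), (1, -1)] i
def dirs2 (i : Fin 4) : ZP := ![(1, 0), (0, 1), (1, 1), (1, -1)] i

open Classical in
/-- a slope set given by four integer vectors -/
noncomputable def mkD (f : Fin 4 → ZP) : Finset (Submodule ℝ Plane) :=
  Finset.univ.image fun i => line (f i)

theorem slope_mkD {f : Fin 4 → ZP} (hf : ∀ i j, i ≠ j → cr (tc (f i)) (tc (f j)) ≠ 0) :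
    IsSlopeSet 4 (mkD f) := by
  classical
  refine ⟨?_, ?_⟩
  · unfold mkD
    rw [Finset.card_image_of_injective]
    · simp
    · intro i j hij
      by_contra hne
      exact line_ne (hf i j hne) hij
  · intro ℓ hℓ
    unfold mkD at hℓ
    obtain ⟨i, _, rfl⟩ := Finset.mem_image.mp hℓ
    unfold line
    apply finrank_span_singleton
    obtain ⟨j, hj⟩ : ∃ j, i ≠ j := ⟨i + 1, by fin_cases i <;> decide⟩
    exact (ne_zero_of_cr (hf i j hj)).1

theorem mem_mkD {f : Fin 4 → ZP} (i : Fin 4) : line (f i) ∈ mkD f := by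
  classical
  unfold mkD
  exact Finset.mem_image_of_mem _ (Finset.mem_univ i)

theorem cr_tc (a b : ZP) : cr (tc a) (tc b) = ((a.1 * b.2 - a.2 * b.1 : ℤ) : ℝ) := by
  simp only [cr, tc]; push_cast; ring

theorem slope1 : IsSlopeSet 4 (mkD dirs1) := by
  apply slope_mkD
  intro i j hij
  rw [cr_tc]
  have : (dirs1 i).1 * (dirs1 j).2 - (dirs1 i).2 * (dirs1 j).1 ≠ 0 := by
    revert i j; decide
  exact_mod_cast this

theorem slope2 : IsSlopeSet 4 (mkD dirs2) := by
  apply slope_mkD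
  intro i j hij
  rw [cr_tc]
  have : (dirs2 i).1 * (dirs2 j).2 - (dirs2 i).2 * (dirs2 j).1 ≠ 0 := by
    revert i j; decide
  exact_mod_cast this

theorem par_mem {s : ZP × ZP} {d : ZP} (hd : d ≠ (0, 0)) (h : par s d = true) :
    tc s.2 - tc s.1 ∈ line d := by
  unfold par at h
  rw [decide_eq_true_eq] at h
  have hcr : cr (tc d) (tc s.2 - tc s.1) = 0 := by
    simp only [cr, tc, Prod.fst_sub, Prod.snd_sub]
    have h' : (((s.2.1 - s.1.1) * d.2 : ℤ) : ℝ) = (((s.2.2 - s.1.2) * d.1 : ℤ) : ℝ) := by rw [h]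
    push_cast at h'
    linarith
  have hd' : tc d ≠ 0 := by
    intro h0
    apply hd
    have h1 := congrArg Prod.fst h0
    have h2 := congrArg Prod.snd h0
    simp only [tc, Prod.fst_zero, Prod.snd_zero] at h1 h2
    exact Prod.ext (by exact_mod_cast h1) (by exact_mod_cast h2)
  obtain ⟨c, hc⟩ := smul_of_cr hcr hd'
  exact mem_line.mpr ⟨c, hc.symm⟩

theorem dirs_mem1 {s : ZP × ZP} (h : D1.any (par s) = true) :
    ∃ ℓ ∈ mkD dirs1, tc s.2 - tc s.1 ∈ ℓ := by
  rw [List.any_eq_true] at h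
  obtain ⟨d, hd, h1⟩ := h
  obtain ⟨i, rfl, hne⟩ := (by decide : ∀ d ∈ D1, ∃ i, d = dirs1 i ∧ d ≠ (0, 0)) d hd
  exact ⟨_, mem_mkD i, par_mem hne h1⟩

theorem dirs_mem2 {s : ZP × ZP} (h : D2.any (par s) = true) :
    ∃ ℓ ∈ mkD dirs2, tc s.2 - tc s.1 ∈ ℓ := by
  rw [List.any_eq_true] at h
  obtain ⟨d, hd, h1⟩ := h
  obtain ⟨i, rfl, hne⟩ := (by decide : ∀ d ∈ D2, ∃ i, d = dirs2 i ∧ d ≠ (0, 0)) d hd
  exact ⟨_, mem_mkD i, par_mem hne h1⟩

theorem tc_ne {a b : ZP} (h : a ≠ b) : tc a ≠ tc b := fun h0 =>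
  tc_sub_ne h (by rw [h0, sub_self])

/-- the representation with one bend -/
theorem rep1 : HasRep (mkD dirs1) 1 G := by
  refine ⟨fun n => PS (s1 n), ?_, ?_⟩
  · intro n
    have h1 := nd1 n
    have h2 := dir1 n
    unfold nd at h1
    simp only [s1, List.all_cons, List.all_nil, Bool.and_true, Bool.and_eq_true,
      decide_eq_true_eq] at h1 h2
    refine ⟨1, le_rfl, fun i => tc (p1 n i), ?_, ?_⟩
    · intro i hi
      have : i = 0 ∨ i = 1 := by omega
      rcases this with rfl | rfl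
      · exact ⟨tc_ne h1.1, dirs_mem1 h2.1⟩
      · exact ⟨tc_ne h1.2, dirs_mem1 h2.2⟩
    · ext x
      simp only [PS, s1, List.mem_cons, List.not_mem_nil, or_false]
      constructor
      · rintro ⟨s, rfl | rfl, hx⟩
        · exact ⟨0, by omega, hx⟩
        · exact ⟨1, le_rfl, hx⟩
      · rintro ⟨i, hi, hx⟩
        have : i = 0 ∨ i = 1 := by omega
        rcases this with rfl | rfl
        · exact ⟨_, Or.inl rfl, hx⟩
        · exact ⟨_, Or.inr rfl, hx⟩
  · intro u v huv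
    exact ⟨fun h => h.2, fun h => ⟨huv, h⟩⟩

/-- the representation with two bends -/
theorem rep2 : HasRep (mkD dirs2) 2 G := by
  refine ⟨fun n => PS (s2 n), ?_, ?_⟩
  · intro n
    have h1 := nd2 n
    have h2 := dir2 n
    unfold nd at h1
    simp only [s2, List.all_cons, List.all_nil, Bool.and_true, Bool.and_eq_true,
      decide_eq_true_eq] at h1 h2
    refine ⟨2, le_rfl, fun i => tc (p2 n i), ?_, ?_⟩
    · intro i hi
      have : i = 0 ∨ i = 1 ∨ i = 2 := by omega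
      rcases this with rfl | rfl | rfl
      · exact ⟨tc_ne h1.1, dirs_mem2 h2.1⟩
      · exact ⟨tc_ne h1.2.1, dirs_mem2 h2.2.1⟩
      · exact ⟨tc_ne h1.2.2, dirs_mem2 h2.2.2⟩
    · ext x
      simp only [PS, s2, List.mem_cons, List.not_mem_nil, or_false]
      constructor
      · rintro ⟨s, rfl | rfl | rfl, hx⟩
        · exact ⟨0, by omega, hx⟩
        · exact ⟨1, by omega, hx⟩
        · exact ⟨2, le_rfl, hx⟩
      · rintro ⟨i, hi, hx⟩
        have : i = 0 ∨ i = 1 ∨ i = 2 := by omega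
        rcases this with rfl | rfl | rfl
        · exact ⟨_, Or.inl rfl, hx⟩
        · exact ⟨_, Or.inr (Or.inl rfl), hx⟩
        · exact ⟨_, Or.inr (Or.inr rfl), hx⟩
  · have key : ∀ u v : Fin 96, u < v →
        ((PS (s1 u) ∩ PS (s1 v)).Infinite ↔ (PS (s2 u) ∩ PS (s2 v)).Infinite) := by
      intro u v huv
      rw [← adL_iff (nd1 u) (nd1 v), ← adL_iff (nd2 u) (nd2 v), same_adj u v huv]
    intro u v huv
    have h1 : G.Adj u v ↔ (PS (s1 u) ∩ PS (s1 v)).Infinite :=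
      ⟨fun h => h.2, fun h => ⟨huv, h⟩⟩
    rw [h1]
    rcases lt_or_gt_of_ne huv with h | h
    · exact key u v h
    · rw [Set.inter_comm, key v u h, Set.inter_comm]

/-! ### adjacencies of the graph -/

theorem f1 : ∀ i j, adL (s1 (hu i)) (s1 (hv j)) = false := by decide +kernel
theorem f2 : ∀ i j n, adL (s1 (cor i j n)) (s1 (hu i)) = true := by decide +kernel
theorem f3 : ∀ i j n, adL (s1 (cor i j n)) (s1 (hv j)) = true := by decide +kernel
theorem f4 : ∀ i j n i' j' n', (i, j, n) ≠ (i', j', n') →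
    adL (s1 (cor i j n)) (s1 (cor i' j' n')) = false := by decide +kernel
theorem fx1 : ∀ i, ∀ k < 15, adL (s1 (zx i k)) (s1 (hu i)) = true := by decide +kernel
theorem fx2 : ∀ i, ∀ k < 15, ∀ j, adL (s1 (zx i k)) (s1 (hv j)) = false := by decide +kernel
theorem fx3 : ∀ i, ∀ k < 15, adL (s1 (zx i k)) (s1 (cor i (LX i k).1 (LX i k).2)) = true := by
  decide +kernel
theorem fx4 : ∀ i, ∀ k < 15,
    adL (s1 (zx i k)) (s1 (cor i (LX i (k + 1)).1 (LX i (k + 1)).2)) = true := by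
  decide +kernel
theorem fx5 : ∀ i, ∀ k < 15, ∀ j < 16, j ≠ k → j ≠ k + 1 →
    adL (s1 (zx i k)) (s1 (cor i (LX i j).1 (LX i j).2)) = false := by
  decide +kernel
theorem fy1 : ∀ j, ∀ k < 15, adL (s1 (zy j k)) (s1 (hv j)) = true := by decide +kernel
theorem fy2 : ∀ j, ∀ k < 15, ∀ i, adL (s1 (zy j k)) (s1 (hu i)) = false := by decide +kernel
theorem fy3 : ∀ j, ∀ k < 15, adL (s1 (zy j k)) (s1 (cor (LY j k).1 j (LY j k).2)) = true := by
  decide +kernel
theorem fy4 : ∀ j, ∀ k < 15,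
    adL (s1 (zy j k)) (s1 (cor (LY j (k + 1)).1 j (LY j (k + 1)).2)) = true := by
  decide +kernel
theorem fy5 : ∀ j, ∀ k < 15, ∀ i < 16, i ≠ k → i ≠ k + 1 →
    adL (s1 (zy j k)) (s1 (cor (LY j i).1 j (LY j i).2)) = false := by
  decide +kernel

theorem z_ne : ∀ (i j : Fin 2) (k : ℕ) (i' j' : Fin 2) (n : Fin 8),
    zx i k ≠ hu i' ∧ zx i k ≠ hv i' ∧ zx i k ≠ cor i' j' n ∧ zy j k ≠ hu i' ∧ zy j k ≠ hv i' ∧
      zy j k ≠ cor i' j' n ∧ cor i' j' n ≠ hu i ∧ cor i' j' n ≠ hv i ∧ hu i ≠ hv j := by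
  intro i j k i' j' n
  simp only [zx, zy, hu, hv, cor, ne_eq, Fin.mk.injEq]
  omega

theorem cor_ne {i j : Fin 2} {n : Fin 8} {i' j' : Fin 2} {n' : Fin 8}
    (h : (i, j, n) ≠ (i', j', n')) : cor i j n ≠ cor i' j' n' := by
  intro he
  apply h
  simp only [cor, Fin.mk.injEq] at he
  have h1 : i = i' := by omega
  have h2 : j = j' := by omega
  have h3 : n = n' := by omega
  rw [h1, h2, h3]

/-- polylines of a representation with at most one bend, as pairs of arms -/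
theorem rep_data {q : Fin 96 → Pt} {a : Fin 96 → Fin 2 → Pt} {P : Fin 96 → Set Plane}
    (hP : ∀ v, P v = ⋃ i : Fin 2, sg (q v) (a v i))
    (hG : ∀ u v, u ≠ v → (G.Adj u v ↔ (P u ∩ P v).Infinite)) {n m : Fin 96} (h : n ≠ m) :
    Adj q a n m ↔ adL (s1 n) (s1 m) = true := by
  rw [← G_adj h, hG n m h, adj_iff, hP, hP]
  exact Iff.rfl

theorem not_rep_zero {D : Finset (Submodule ℝ Plane)} : ¬ HasRep D 0 G := by
  rintro ⟨P, hP, hG⟩
  choose q a ha hPa using fun v => polyline_zero (hP v)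
  have A := fun {n m : Fin 96} (h : n ≠ m) => rep_data hPa hG h
  have N : ∀ {n m : Fin 96}, n ≠ m → adL (s1 n) (s1 m) = false → ¬ Adj q a n m := by
    intro n m h h1 h2
    rw [A h, h1] at h2
    exact Bool.false_ne_true h2
  obtain ⟨loc, x, y, l, m, hQ⟩ := k28 (q := q) (a := a) (u := hu 0) (v := hv 0)
    (N (z_ne 0 0 0 0 0 0).2.2.2.2.2.2.2.2 (f1 0 0)) (cor 0 0)
    (fun n => (A (z_ne 0 0 0 0 0 n).2.2.2.2.2.2.1).mpr (f2 0 0 n))
    (fun n => (A (z_ne 0 0 0 0 0 n).2.2.2.2.2.2.2.1).mpr (f3 0 0 n))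
    (fun n n' hn => N (cor_ne (by simpa using hn)) (f4 _ _ _ _ _ _ (by simpa using hn)))
  apply hQ.cru
  rw [ha]
  simp [cr]

theorem isDir_of_mem {v : Pt} (hv : v ≠ 0) (h : ∃ ℓ ∈ mkD dirs2, v ∈ ℓ) : IsDir v := by
  classical
  refine ⟨hv, ?_⟩
  obtain ⟨ℓ, hℓ, hvℓ⟩ := h
  unfold mkD at hℓ
  obtain ⟨i, _, rfl⟩ := Finset.mem_image.mp hℓ
  obtain ⟨c, rfl⟩ := mem_line.mp hvℓ
  fin_cases i
  · left; simp [dirs2, tc]
  · right; left; simp [dirs2, tc]
  · right; right; left; simp [dirs2, tc]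
  · right; right; right; simp [dirs2, tc]

theorem not_rep_one : ¬ HasRep (mkD dirs2) 1 G := by
  rintro ⟨P, hP, hG⟩
  choose q a ha hPa using fun v => polyline_one (hP v)
  have A := fun {n m : Fin 96} (h : n ≠ m) => rep_data hPa hG h
  have N : ∀ {n m : Fin 96}, n ≠ m → adL (s1 n) (s1 m) = false → ¬ Adj q a n m := by
    intro n m h h1 h2
    rw [A h, h1] at h2
    exact Bool.false_ne_true h2
  refine negative (q := q) (a := a) lists hu hv cor zx zy ?_ ?_ ?_ ?_ ?_ ?_ ?_ ?_ ?_ ?_ ?_ ?_ ?_ ?_ ?_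
  · exact fun i j => N (z_ne i j 0 0 0 0).2.2.2.2.2.2.2.2 (f1 i j)
  · exact fun i j n => (A (z_ne i 0 0 i j n).2.2.2.2.2.2.1).mpr (f2 i j n)
  · exact fun i j n => (A (z_ne j 0 0 i j n).2.2.2.2.2.2.2.1).mpr (f3 i j n)
  · exact fun i j n i' j' n' h => N (cor_ne h) (f4 _ _ _ _ _ _ h)
  · exact fun i k hk => (A (z_ne i 0 k i 0 0).1).mpr (fx1 i k hk)
  · exact fun i k hk j => N (z_ne i 0 k j 0 0).2.1 (fx2 i k hk j)
  · exact fun i k hk => (A (z_ne i 0 k _ _ _).2.2.1).mpr (fx3 i k hk)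
  · exact fun i k hk => (A (z_ne i 0 k _ _ _).2.2.1).mpr (fx4 i k hk)
  · exact fun i k hk j hj h1 h2 => N (z_ne i 0 k _ _ _).2.2.1 (fx5 i k hk j hj h1 h2)
  · exact fun j k hk => (A (z_ne 0 j k j 0 0).2.2.2.2.1).mpr (fy1 j k hk)
  · exact fun j k hk i => N (z_ne 0 j k i 0 0).2.2.2.1 (fy2 j k hk i)
  · exact fun j k hk => (A (z_ne 0 j k _ _ _).2.2.2.2.2.1).mpr (fy3 j k hk)
  · exact fun j k hk => (A (z_ne 0 j k _ _ _).2.2.2.2.2.1).mpr (fy4 j k hk)
  · exact fun j k hk i hi h1 h2 => N (z_ne 0 j k _ _ _).2.2.2.2.2.1 (fy5 j k hk i hi h1 h2)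
  · exact fun y i h => isDir_of_mem h (ha y i h)

/-- There are a graph `G` and a set `D` of four slopes such that `b_4(G) = 1` but `β_D(G) = 2`. -/
theorem result : ∃ (n : ℕ) (G : SimpleGraph (Fin n)) (D : Finset (Submodule ℝ Plane)),
    IsSlopeSet 4 D ∧ bendNumber 4 G = 1 ∧ beta D G = 2 := by
  refine ⟨96, G, mkD dirs2, slope2, ?_, ?_⟩
  · apply le_antisymm
    · unfold bendNumber
      refine iInf₂_le_of_le (mkD dirs1) slope1 ?_
      unfold beta
      exact iInf₂_le_of_le 1 rep1 (by norm_num)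
    · unfold bendNumber beta
      refine le_iInf₂ fun D _ => le_iInf₂ fun k hk => ?_
      have : k ≠ 0 := by
        rintro rfl
        exact not_rep_zero hk
      have h1 : 1 ≤ k := Nat.one_le_iff_ne_zero.mpr this
      exact_mod_cast h1
  · apply le_antisymm
    · unfold beta
      exact iInf₂_le_of_le 2 rep2 (by norm_num)
    · unfold beta
      refine le_iInf₂ fun k hk => ?_
      have h1 : 2 ≤ k := by
        by_contra hcon
        exact not_rep_one (rep_mono (by omega) hk)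
      exact_mod_cast h1

end Pool.Agent.Results.MP_4b3eba_co.SlopeDependence
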